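import Pool.Agent.Lib.MP_3f2ee3_pr.Asym

/-!
# MP_3f2ee3_pr, Q1: above the maximal-clique threshold no estimator of the top-degree
hyperedges succeeds
-/

set_option autoImplicit false

namespace Pool.Agent.Results.MP_3f2ee3_pr.TopDegree

open Finset Filter Topology Pool.Agent.Hyp

/-! ### The model -/

/-- All `r`-element subsets of the vertex set `Fin n`. -/
def subsetsOfSize (n r : ℕ) : Finset (Finset (Fin n)) :=
  (Finset.univ : Finset (Fin n)).powersetCard r

/-- All possible outcomes of the random hypergraph: for every `j`, a family `H j` of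
`d j`-element subsets of the vertex set. -/
def outcomes {k : ℕ} (n : ℕ) (d : Fin k → ℕ) : Finset (Fin k → Finset (Finset (Fin n))) :=
  Fintype.piFinset fun j => (subsetsOfSize n (d j)).powerset

/-- The probability of the outcome `H`: independently of all others, every `d j`-element subset
is a hyperedge of degree `d j` with probability `p j`. -/
noncomputable def prob {k : ℕ} (n : ℕ) (d : Fin k → ℕ) (p : Fin k → ℝ)
    (H : Fin k → Finset (Finset (Fin n))) : ℝ :=
  ∏ j, ((∏ _h ∈ H j, p j) * ∏ _h ∈ subsetsOfSize n (d j) \ H j, (1 - p j))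

/-- The expectation of `f H`, where `H` is the random hypergraph. -/
noncomputable def expect {k : ℕ} (n : ℕ) (d : Fin k → ℕ) (p : Fin k → ℝ)
    (f : (Fin k → Finset (Finset (Fin n))) → ℝ) : ℝ :=
  ∑ H ∈ outcomes n d, prob n d p H * f H

/-- The projected graph: two different vertices are adjacent if and only if some hyperedge, of any
degree, contains both. -/
def projection {k n : ℕ} (H : Fin k → Finset (Finset (Fin n))) : SimpleGraph (Fin n) where
  Adj x y := x ≠ y ∧ ∃ j, ∃ h ∈ H j, x ∈ h ∧ y ∈ h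
  symm := ⟨fun _ _ h =>
    ⟨h.1.symm, h.2.imp fun _ h2 => h2.imp fun _ h3 => ⟨h3.1, h3.2.2, h3.2.1⟩⟩⟩
  loopless := ⟨fun _ h => h.1 rfl⟩

/-- A (possibly randomised) estimator: it assigns to every graph on `Fin n` a probability
distribution on the families of subsets of `Fin n`. -/
abbrev Estimator (n : ℕ) := SimpleGraph (Fin n) → PMF (Finset (Finset (Fin n)))

/-- The expected size of the symmetric difference of `H j` and the output of the estimator `Q`,
which sees only the projected graph. -/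
noncomputable def expectedError {k : ℕ} (n : ℕ) (d : Fin k → ℕ) (p : Fin k → ℝ) (j : Fin k)
    (Q : Estimator n) : ℝ :=
  expect n d p fun H => ∑ F, (Q (projection H) F).toReal * ((symmDiff (H j) F).card : ℝ)

/-- The expected number of hyperedges of degree `d j`. -/
noncomputable def expectedSize {k : ℕ} (n : ℕ) (d : Fin k → ℕ) (p : Fin k → ℝ) (j : Fin k) : ℝ :=
  expect n d p fun H => ((H j).card : ℝ)

/-- The sequence of estimators `Q` of the hyperedges of degree `d j` succeeds. -/
def Succeeds {k : ℕ} (d : Fin k → ℕ) (p : Fin k → ℕ → ℝ) (j : Fin k)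
    (Q : (n : ℕ) → Estimator n) : Prop :=
  (fun n => expectedError n d (fun i => p i n) j (Q n))
    =o[atTop] (fun n => expectedSize n d (fun i => p i n) j)

/-- The threshold `τ = (d - 2) / d + 2 δ / (d (d - 1))`. -/
noncomputable def tau (d : ℕ) (δ : ℝ) : ℝ := ((d : ℝ) - 2) / d + 2 * δ / (d * (d - 1))

/-! ### Comparison with the product expectation -/

section bridge

variable {k n : ℕ} {d : Fin k → ℕ}

/-- the ground set -/
def grd (n : ℕ) (d : Fin k → ℕ) : Finset (Finset (Fin n)) :=
  univ.biUnion fun j => subsetsOfSize n (d j)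

/-- the density of a subset -/
noncomputable def dens (d : Fin k → ℕ) (p : Fin k → ℝ) (h : Finset (Fin n)) : ℝ :=
  ∑ j, if h.card = d j then p j else 0

theorem mem_subsetsOfSize {r : ℕ} {h : Finset (Fin n)} : h ∈ subsetsOfSize n r ↔ h.card = r := by
  simp [subsetsOfSize]

theorem dens_eq (hd : Function.Injective d) (p : Fin k → ℝ) {j : Fin k} {h : Finset (Fin n)}
    (hh : h.card = d j) : dens d p h = p j := by
  unfold dens
  rw [sum_eq_single j]
  · rw [if_pos hh]
  · intro i _ hij
    rw [if_neg]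
    intro h2
    exact hij (hd (h2.symm.trans hh))
  · intro h2
    exact absurd (mem_univ j) h2

theorem subsets_disjoint (hd : Function.Injective d) {i j : Fin k} (hij : i ≠ j) :
    Disjoint (subsetsOfSize n (d i)) (subsetsOfSize n (d j)) := by
  rw [Finset.disjoint_left]
  intro h h1 h2
  rw [mem_subsetsOfSize] at h1 h2
  exact hij (hd (h1.symm.trans h2))

theorem wt_eq (hd : Function.Injective d) (p : Fin k → ℝ) {A : Finset (Finset (Fin n))}
    (hA : A ⊆ grd n d) :
    wt (grd n d) (dens d p) A = prob n d p (fun j => A ∩ subsetsOfSize n (d j)) := by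
  have h1 : A = univ.biUnion fun j => A ∩ subsetsOfSize n (d j) := by
    ext h
    simp only [mem_biUnion, mem_univ, true_and, mem_inter]
    constructor
    · intro hh
      obtain ⟨j, _, hj⟩ := mem_biUnion.1 (hA hh)
      exact ⟨j, hh, hj⟩
    · rintro ⟨j, hh, _⟩
      exact hh
  have h2 : grd n d \ A = univ.biUnion fun j => subsetsOfSize n (d j)
      \ (A ∩ subsetsOfSize n (d j)) := by
    ext h
    simp only [grd, Finset.mem_sdiff, mem_biUnion, mem_univ, true_and, mem_inter]
    constructor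
    · rintro ⟨⟨j, hj⟩, hh⟩
      exact ⟨j, hj, fun h3 => hh h3.1⟩
    · rintro ⟨j, hj, hh⟩
      exact ⟨⟨j, hj⟩, fun h3 => hh ⟨h3, hj⟩⟩
  have e1 : ∏ t ∈ A, dens d p t = ∏ j, ∏ _h ∈ A ∩ subsetsOfSize n (d j), p j := by
    conv_lhs => rw [h1]
    rw [prod_biUnion]
    · refine prod_congr rfl fun j _ => prod_congr rfl fun h hh => ?_
      exact dens_eq hd p (mem_subsetsOfSize.1 (mem_inter.1 hh).2)
    · intro i _ j _ hij
      exact (subsets_disjoint hd hij).mono inter_subset_right inter_subset_right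
  have e2 : ∏ t ∈ grd n d \ A, (1 - dens d p t)
      = ∏ j, ∏ _h ∈ subsetsOfSize n (d j) \ (A ∩ subsetsOfSize n (d j)), (1 - p j) := by
    rw [h2, prod_biUnion]
    · refine prod_congr rfl fun j _ => prod_congr rfl fun h hh => ?_
      rw [dens_eq hd p (mem_subsetsOfSize.1 (Finset.mem_sdiff.1 hh).1)]
    · intro i _ j _ hij
      exact (subsets_disjoint hd hij).mono sdiff_subset sdiff_subset
  rw [wt, prob, e1, e2, prod_mul_distrib]

theorem expect_eq (hd : Function.Injective d) (p : Fin k → ℝ)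
    (f : (Fin k → Finset (Finset (Fin n))) → ℝ) :
    expect n d p f = Ex (grd n d) (dens d p) (fun A => f (fun j => A ∩ subsetsOfSize n (d j))) := by
  unfold expect Ex
  symm
  refine sum_nbij' (fun A => fun j => A ∩ subsetsOfSize n (d j)) (fun H => univ.biUnion H)
    ?_ ?_ ?_ ?_ ?_
  · intro A _
    rw [outcomes, Fintype.mem_piFinset]
    intro j
    rw [mem_powerset]
    exact inter_subset_right
  · intro H hH
    rw [outcomes, Fintype.mem_piFinset] at hH
    rw [mem_powerset, grd]
    intro h hh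
    rw [mem_biUnion] at hh ⊢
    obtain ⟨j, hj, hh⟩ := hh
    exact ⟨j, hj, (mem_powerset.1 (hH j)) hh⟩
  · intro A hA
    rw [mem_powerset] at hA
    ext h
    simp only [mem_biUnion, mem_univ, true_and, mem_inter]
    constructor
    · rintro ⟨j, hh, _⟩
      exact hh
    · intro hh
      obtain ⟨j, _, hj⟩ := mem_biUnion.1 (hA hh)
      exact ⟨j, hh, hj⟩
  · intro H hH
    rw [outcomes, Fintype.mem_piFinset] at hH
    funext j
    ext h
    simp only [mem_biUnion, mem_univ, true_and, mem_inter]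
    constructor
    · rintro ⟨⟨i, hi⟩, hj⟩
      have h1 := (mem_powerset.1 (hH i)) hi
      rw [mem_subsetsOfSize] at h1 hj
      have : i = j := hd (h1.symm.trans hj)
      rw [← this]
      exact hi
    · intro hh
      exact ⟨⟨j, hh⟩, (mem_powerset.1 (hH j)) hh⟩
  · intro A hA
    rw [mem_powerset] at hA
    rw [wt_eq hd p hA]

/-- the graph of a set of pairs -/
def toG (G : Finset (Finset (Fin n))) : SimpleGraph (Fin n) where
  Adj x y := x ≠ y ∧ ({x, y} : Finset (Fin n)) ∈ G
  symm := ⟨fun _ _ h => ⟨h.1.symm, by rw [Finset.pair_comm]; exact h.2⟩⟩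
  loopless := ⟨fun _ h => h.1 rfl⟩

theorem projection_eq {A : Finset (Finset (Fin n))} (hA : A ⊆ grd n d) :
    projection (fun j => A ∩ subsetsOfSize n (d j)) = toG (pr A) := by
  ext x y
  change (x ≠ y ∧ ∃ j, ∃ h ∈ A ∩ subsetsOfSize n (d j), x ∈ h ∧ y ∈ h)
    ↔ (x ≠ y ∧ ({x, y} : Finset (Fin n)) ∈ pr A)
  refine and_congr_right fun hxy => ?_
  rw [mem_pr]
  constructor
  · rintro ⟨j, h, hh, hx, hy⟩
    refine ⟨h, (mem_inter.1 hh).1, ?_, card_pair hxy⟩
    intro z hz
    rw [mem_insert, mem_singleton] at hz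
    rcases hz with rfl | rfl
    · exact hx
    · exact hy
  · rintro ⟨h, hh, hsub, _⟩
    obtain ⟨j, _, hj⟩ := mem_biUnion.1 (hA hh)
    exact ⟨j, h, mem_inter.2 ⟨hh, hj⟩, hsub (by simp), hsub (by simp)⟩

theorem prob_dens (hd : Function.Injective d) {p : Fin k → ℝ} (hp : ∀ j, 0 ≤ p j ∧ p j ≤ 1) :
    Prob (grd n d) (dens d p) := by
  intro h hh
  obtain ⟨j, _, hj⟩ := mem_biUnion.1 hh
  rw [dens_eq hd p (mem_subsetsOfSize.1 hj)]
  exact hp j

theorem expectedSize_eq (hd : Function.Injective d) (p : Fin k → ℝ) (j : Fin k) :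
    expectedSize n d p j = (subsetsOfSize n (d j)).card * p j := by
  unfold expectedSize
  rw [expect_eq hd]
  have h1 : subsetsOfSize n (d j) ⊆ grd n d := fun h hh => mem_biUnion.2 ⟨j, mem_univ _, hh⟩
  have h2 := Ex_card_mul (S := grd n d) (p := dens d p) (subsetsOfSize n (d j)) h1 (fun _ => 1)
  simp only [mul_one, Ex_const] at h2
  rw [h2, sum_congr rfl fun h hh => dens_eq hd p (mem_subsetsOfSize.1 hh), sum_const, nsmul_eq_mul]

/-- the probability that the estimator puts `K` into its output -/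
noncomputable def gK (Q : Estimator n) (K : Finset (Fin n)) (G : Finset (Finset (Fin n))) : ℝ :=
  ∑ F, (Q (toG G) F).toReal * (if K ∈ F then 1 else 0)

theorem sum_Q (Q : Estimator n) (G : SimpleGraph (Fin n)) : ∑ F, (Q G F).toReal = 1 := by
  have h1 : ∑ F, (Q G) F = 1 := by
    rw [← tsum_fintype (L := .unconditional _)]
    exact (Q G).tsum_coe
  rw [← ENNReal.toReal_sum (fun F _ => (Q G).apply_ne_top F), h1, ENNReal.toReal_one]

theorem gK_UI (Q : Estimator n) (K : Finset (Fin n)) : UI (gK Q K) := by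
  intro G
  constructor
  · exact sum_nonneg fun F _ => mul_nonneg ENNReal.toReal_nonneg (by split_ifs <;> norm_num)
  · rw [← sum_Q Q (toG G)]
    refine sum_le_sum fun F _ => ?_
    have h1 : (0 : ℝ) ≤ (Q (toG G) F).toReal := ENNReal.toReal_nonneg
    split_ifs <;> linarith

theorem error_ge (Q : Estimator n) {A : Finset (Finset (Fin n))} (hA : A ⊆ grd n d) (j : Fin k) :
    ∑ K ∈ subsetsOfSize n (d j), (if K ∈ A then 1 - gK Q K (pr A) else gK Q K (pr A))
      ≤ ∑ F, (Q (projection fun i => A ∩ subsetsOfSize n (d i)) F).toReal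
        * ((symmDiff (A ∩ subsetsOfSize n (d j)) F).card : ℝ) := by
  rw [projection_eq hA]
  have h1 : ∀ K ∈ subsetsOfSize n (d j), (if K ∈ A then 1 - gK Q K (pr A) else gK Q K (pr A))
      = ∑ F, (Q (toG (pr A)) F).toReal
        * (if K ∈ symmDiff (A ∩ subsetsOfSize n (d j)) F then 1 else 0) := by
    intro K hK
    split_ifs with hKA
    · have hKA' : K ∈ A ∩ subsetsOfSize n (d j) := mem_inter.2 ⟨hKA, hK⟩
      unfold gK
      nth_rewrite 1 [← sum_Q Q (toG (pr A))]
      rw [← sum_sub_distrib]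
      refine sum_congr rfl fun F _ => ?_
      by_cases hF : K ∈ F
      · rw [if_pos hF, if_neg]
        · ring
        · rw [mem_symmDiff]
          tauto
      · rw [if_neg hF, if_pos]
        · ring
        · rw [mem_symmDiff]
          tauto
    · have hKA' : K ∉ A ∩ subsetsOfSize n (d j) := fun h => hKA (mem_inter.1 h).1
      unfold gK
      refine sum_congr rfl fun F _ => ?_
      by_cases hF : K ∈ F
      · rw [if_pos hF, if_pos]
        rw [mem_symmDiff]
        tauto
      · rw [if_neg hF, if_neg]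
        rw [mem_symmDiff]
        tauto
  rw [sum_congr rfl h1, sum_comm]
  refine sum_le_sum fun F _ => ?_
  rw [← mul_sum]
  refine mul_le_mul_of_nonneg_left ?_ ENNReal.toReal_nonneg
  rw [← sum_filter, sum_const, nsmul_eq_mul, mul_one]
  exact_mod_cast card_le_card fun K hK => (mem_filter.1 hK).2

end bridge

/-! ### The lower bound for the error -/

theorem expo_of_lim {d : ℕ} {δ : ℝ} (hd : 2 ≤ d) (hδ : δ < 1) {p : ℕ → ℝ}
    (hp : ∀ n, 0 ≤ p n ∧ p n ≤ 1)
    (hlim : Tendsto (fun n : ℕ => Real.log (p n) / Real.log n) atTop (𝓝 (1 - (d : ℝ) + δ))) :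
    Expo p (1 - (d : ℝ) + δ) := by
  refine ⟨?_, hlim⟩
  have hd' : (2 : ℝ) ≤ d := by exact_mod_cast hd
  have h1 : 1 - (d : ℝ) + δ < 0 := by linarith
  filter_upwards [hlim.eventually (gt_mem_nhds h1)] with n hn
  rcases (hp n).1.lt_or_eq with h | h
  · exact h
  · rw [← h] at hn
    simp at hn

/-- the planting relation, for all degrees -/
theorem plantRel_all {d : ℕ} (hd : 2 ≤ d) {δ : ℝ} (hδ : d = 2 ∨ ((d : ℝ) - 1) / (d + 1) < δ)
    (hδ1 : δ < 1) {c : ℕ → ℝ} (hc : Expo c (1 - d + δ)) {ε : ℝ} (hε : 0 < ε) :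
    ∀ᶠ n in atTop, PlantRel (Fin n) d (c n) ε := by
  rcases Nat.lt_or_ge d 3 with h3 | h3
  · have hd2 : d = 2 := by omega
    subst hd2
    filter_upwards with n u hu g _
    have h1 : Nu 2 u = {u} := by
      ext h
      rw [mem_Nu, mem_singleton]
      constructor
      · rintro ⟨h1, h2⟩
        exact (eq_of_subset_of_card_le h2 (by omega)).symm
      · rintro rfl
        exact ⟨hu, subset_rfl⟩
    have h2 : Cm (Nu 2) {u} g = fun G => g ({u} ∪ G) := by
      funext G
      rw [Cm_singleton, av, h1, sum_singleton, card_singleton, Nat.cast_one, div_one, prs_pair hu]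
    rw [h2, sub_self, abs_zero]
    exact hε.le
  · refine plantRel_eventually h3 ?_ hδ1 hc hε
    rcases hδ with h | h
    · omega
    · exact h

/-- No estimator of the hyperedges of degree `d j` is better than the trivial one. -/
theorem trivial_optimal {k : ℕ} (d : Fin k → ℕ) (hd : Function.Injective d)
    (hd2 : ∀ j, 2 ≤ d j) (δ : Fin k → ℝ) (hδ : ∀ j, 0 < δ j ∧ δ j < 1)
    (p : Fin k → ℕ → ℝ) (hp : ∀ j n, 0 ≤ p j n ∧ p j n ≤ 1)
    (hlim : ∀ j, Tendsto (fun n : ℕ => Real.log (p j n) / Real.log n) atTop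
      (𝓝 (1 - (d j : ℝ) + δ j)))
    (j i : Fin k) (hj3 : 3 ≤ d j) (hij : d i ≤ d j) (hτ : tau (d j) (δ j) < δ i)
    {ε : ℝ} (hε : 0 < ε) :
    ∀ᶠ n in atTop, ∀ Q : Estimator n,
      (1 - ε) * expectedSize n d (fun l => p l n) j ≤ expectedError n d (fun l => p l n) j Q := by
  have xi : Expo (p i) (1 - (d i : ℝ) + δ i) := expo_of_lim (hd2 i) (hδ i).2 (hp i) (hlim i)
  have xj : Expo (p j) (1 - (d j : ℝ) + δ j) := expo_of_lim (hd2 j) (hδ j).2 (hp j) (hlim j)
  have hj3' : (3 : ℝ) ≤ d j := by exact_mod_cast hj3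
  have hi2' : (2 : ℝ) ≤ d i := by exact_mod_cast hd2 i
  -- the numbers
  have hτ' : 1 - (d j : ℝ) + δ j < (((d j).choose 2 : ℕ) : ℝ) * (δ i - 1) := by
    unfold tau at hτ
    rw [Nat.cast_choose_two]
    have h1 : ((d j : ℝ) - 2) / d j + 2 * δ j / (d j * (d j - 1))
        = (((d j : ℝ) - 2) * (d j - 1) + 2 * δ j) / (d j * (d j - 1)) := by
      have h2 : (d j : ℝ) ≠ 0 := by linarith
      have h3 : (d j : ℝ) - 1 ≠ 0 := by linarith
      field_simp
    rw [h1, div_lt_iff₀ (mul_pos (by linarith) (by linarith))] at hτ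
    nlinarith
  have hδi : ((d i : ℝ) - 1) / (d i + 1) < δ i := by
    rw [div_lt_iff₀ (by linarith)]
    unfold tau at hτ
    rcases hij.lt_or_eq with h | h
    · have h4 : (d i : ℝ) + 1 ≤ d j := by exact_mod_cast h
      have h5 : ((d j : ℝ) - 2) / d j < δ i := by
        refine lt_of_le_of_lt ?_ hτ
        have : 0 ≤ 2 * δ j / (d j * ((d j : ℝ) - 1)) :=
          div_nonneg (by linarith [(hδ j).1]) (mul_nonneg (by linarith) (by linarith))
        linarith
      rw [div_lt_iff₀ (by linarith)] at h5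
      have h6 := (hδ i).2
      nlinarith
    · have h7 : i = j := hd h
      subst h7
      rw [Nat.cast_choose_two] at hτ'
      -- (1-δ) d (d-1)/2 < d - 1 - δ
      have h8 : ((d i : ℝ) - 2) * ((d i - 1) - δ i * (d i + 1)) < 0 := by nlinarith
      by_contra hcon
      push Not at hcon
      have : 0 ≤ ((d i : ℝ) - 2) * ((d i - 1) - δ i * (d i + 1)) :=
        mul_nonneg (by linarith) (by linarith)
      linarith
  set m : ℕ := (d j).choose 2 with hm
  set ε' : ℝ := ε / (2 * (m + 1)) with hε'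
  have hm0 : (0 : ℝ) ≤ m := Nat.cast_nonneg _
  have hε'0 : 0 < ε' := by positivity
  have hPR := plantRel_all (hd2 i) (Or.inr hδi) (hδ i).2 xi hε'0
  set M : ℕ → ℝ := fun n => ((n - 2).choose (d i - 2) : ℝ) with hM
  set M' : ℕ → ℝ := fun n => ((n - d j).choose (d i - 2) : ℝ) with hM'
  have xM' : Expo M' ((d i - 2 : ℕ) : ℝ) := Expo.choose (d j) (d i - 2)
  have xM : Expo M ((d i - 2 : ℕ) : ℝ) := Expo.choose 2 (d i - 2)
  have hdi2 : ((d i - 2 : ℕ) : ℝ) = (d i : ℝ) - 2 := by
    rw [Nat.cast_sub (hd2 i)]; norm_num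
  set Y : ℕ → ℝ := fun n => p i n * M' n with hY
  have xY : Expo Y (δ i - 1) := by
    have h1 := xi.mul xM'
    have h2 : (1 - (d i : ℝ) + δ i) + ((d i - 2 : ℕ) : ℝ) = δ i - 1 := by rw [hdi2]; ring
    rwa [h2] at h1
  have hYz : Tendsto Y atTop (𝓝 0) := xY.tendsto_zero (by linarith [(hδ i).2])
  have hpz : Tendsto (p j) atTop (𝓝 0) := xj.tendsto_zero (by linarith [(hδ j).2])
  have hpY : ∀ᶠ n in atTop, p j n < Y n ^ m := xj.lt_of_lt (xY.pow m) hτ'
  set κ : ℕ → ℝ := fun n => 1 - M' n / M n with hκ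
  have hκz : Tendsto κ atTop (𝓝 0) := by
    have := (tendsto_choose_ratio (d j) 2 (d i - 2)).const_sub 1
    simpa using this
  have herr : Tendsto (fun n => m * (ε' + κ n) + p j n + 2 ^ m * Y n) atTop
      (𝓝 (m * ε')) := by
    have h1 := (((hκz.const_add ε').const_mul (m : ℝ)).add hpz).add (hYz.const_mul ((2 : ℝ) ^ m))
    simpa using h1
  have hlt : m * ε' < ε := by
    rw [hε', mul_div_assoc', div_lt_iff₀ (by positivity)]
    nlinarith
  filter_upwards [hPR, hpY, herr.eventually (gt_mem_nhds hlt), xM.1, xM'.1,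
    hYz.eventually (gt_mem_nhds zero_lt_one), eventually_ge_atTop (d i + d j), xj.1]
    with n h1 h2 h3 h4 h5 h6 h7 h8 Q
  have hcardV : Fintype.card (Fin n) = n := Fintype.card_fin n
  have hpn : ∀ l, 0 ≤ (fun l => p l n) l ∧ (fun l => p l n) l ≤ 1 := fun l => hp l n
  have hProb : Prob (grd n d) (dens d fun l => p l n) := prob_dens hd hpn
  -- the bound for one hyperedge
  have key : ∀ K ∈ subsetsOfSize n (d j), p j n * (1 - ε)
      ≤ Ex (grd n d) (dens d fun l => p l n)
        (fun A => if K ∈ A then 1 - gK Q K (pr A) else gK Q K (pr A)) := by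
    intro K hK
    have hKc : K.card = d j := mem_subsetsOfSize.1 hK
    have hKS : K ∈ grd n d := mem_biUnion.2 ⟨j, mem_univ _, hK⟩
    have hpK : dens d (fun l => p l n) K = p j n := dens_eq hd _ hKc
    have hb := est_bound (V := Fin n) hProb (d := d i) (c := p i n) (ε := ε') (κ := κ n) (hd2 i)
      (fun h hh => mem_biUnion.2 ⟨i, mem_univ _, mem_subsetsOfSize.2 (mem_hyp.1 hh)⟩)
      (fun h hh => dens_eq hd _ (mem_hyp.1 hh)) (hp i n).1 h1 hε'0.le hKS (by omega)
      (by
        simp only [hκ]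
        rw [sub_nonneg, div_le_one h4]
        simp only [hM, hM']
        exact_mod_cast Nat.choose_le_choose (d i - 2) (by omega))
      (by
        rw [hcardV, hKc]
        simp only [hκ]
        rw [sub_sub_cancel, div_mul_cancel₀ _ h4.ne'])
      (by
        rw [hcardV, hKc]
        exact Nat.choose_pos (by omega))
      (Y := Y n) (by rw [hcardV, hKc]) h6.le (m := m) (by rw [hKc]) (by rw [hpK]; exact h2.le)
      (gK_UI Q K)
    rw [hpK] at hb
    refine le_trans ?_ hb
    exact mul_le_mul_of_nonneg_left (by linarith) h8.le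
  rw [expectedSize_eq hd]
  unfold expectedError
  rw [expect_eq hd]
  calc (1 - ε) * ((subsetsOfSize n (d j)).card * p j n)
      = ∑ K ∈ subsetsOfSize n (d j), p j n * (1 - ε) := by
        rw [sum_const, nsmul_eq_mul]; ring
    _ ≤ ∑ K ∈ subsetsOfSize n (d j), Ex (grd n d) (dens d fun l => p l n)
        (fun A => if K ∈ A then 1 - gK Q K (pr A) else gK Q K (pr A)) := sum_le_sum key
    _ = Ex (grd n d) (dens d fun l => p l n) (fun A => ∑ K ∈ subsetsOfSize n (d j),
        (if K ∈ A then 1 - gK Q K (pr A) else gK Q K (pr A))) := by rw [Ex_sum]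
    _ ≤ _ := Ex_mono hProb fun A hA => error_ge Q hA j

/-- **Answer to Q1.** Let `2 ≤ d 0 < ⋯ < d k` with `3 ≤ d k`, let `δ j ∈ (0,1)`, let
`δstar = max δ j` be larger than `τ k`, and let every `d j`-subset of `[n]` be a hyperedge with
probability `p j n = n ^ (1 - d j + δ j + o(1))`. Then no (possibly randomised) estimator of the
hyperedges of the largest degree, which only sees the projected graph, succeeds. Indeed the
expected error of every estimator is at least `(1 - o(1))` times the expected number of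
hyperedges of the largest degree. -/
theorem result (k : ℕ) (d : Fin (k + 1) → ℕ) (hd : StrictMono d) (hd2 : ∀ j, 2 ≤ d j)
    (hd3 : 3 ≤ d (Fin.last k))
    (δ : Fin (k + 1) → ℝ) (hδ : ∀ j, 0 < δ j ∧ δ j < 1)
    (δstar : ℝ) (hmax : IsGreatest (Set.range δ) δstar)
    (hτ : tau (d (Fin.last k)) (δ (Fin.last k)) < δstar)
    (p : Fin (k + 1) → ℕ → ℝ) (hp : ∀ j n, 0 ≤ p j n ∧ p j n ≤ 1)
    (hlim : ∀ j, Tendsto (fun n : ℕ => Real.log (p j n) / Real.log n) atTop
      (𝓝 (1 - (d j : ℝ) + δ j))) :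
    (∀ Q : (n : ℕ) → Estimator n, ¬ Succeeds d p (Fin.last k) Q) ∧
    (∀ ε : ℝ, 0 < ε → ∀ᶠ n in atTop, ∀ Q : Estimator n,
      (1 - ε) * expectedSize n d (fun j => p j n) (Fin.last k)
        ≤ expectedError n d (fun j => p j n) (Fin.last k) Q) := by
  obtain ⟨i, hi⟩ := hmax.1
  rw [← hi] at hτ
  have main : ∀ ε : ℝ, 0 < ε → ∀ᶠ n in atTop, ∀ Q : Estimator n,
      (1 - ε) * expectedSize n d (fun j => p j n) (Fin.last k)
        ≤ expectedError n d (fun j => p j n) (Fin.last k) Q := fun ε hε =>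
    trivial_optimal d hd.injective hd2 δ hδ p hp hlim (Fin.last k) i hd3
      (hd.monotone (Fin.le_last i)) hτ hε
  refine ⟨fun Q hQ => ?_, main⟩
  have xk := expo_of_lim (hd2 (Fin.last k)) (hδ (Fin.last k)).2 (hp (Fin.last k))
    (hlim (Fin.last k))
  unfold Succeeds at hQ
  have h1 := hQ.def (show (0 : ℝ) < 1 / 4 by norm_num)
  have h2 := main (1 / 2) (by norm_num)
  obtain ⟨n, h3, h4, h5, h6⟩ := (h1.and (h2.and (xk.1.and
    (eventually_ge_atTop (d (Fin.last k)))))).exists
  have h7 := h4 (Q n)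
  have h8 : 0 < expectedSize n d (fun j => p j n) (Fin.last k) := by
    rw [expectedSize_eq hd.injective]
    refine mul_pos ?_ h5
    rw [subsetsOfSize, card_powersetCard, card_univ, Fintype.card_fin]
    exact_mod_cast Nat.choose_pos h6
  rw [Real.norm_eq_abs, Real.norm_eq_abs, abs_of_pos h8] at h3
  have h9 := (le_abs_self _).trans h3
  linarith

end Pool.Agent.Results.MP_3f2ee3_pr.TopDegree
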